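import Mathlib

/-!
# Tight flute surfaces in Fermi coordinates, and the capacity form of parabolicity

Every pair of pants used in a flute surface is the double of a hyperbolic polygon
(its front half) along its seams.  We describe that polygon in Fermi coordinates `(x, s)`,
in which the hyperbolic metric is `cosh² s dx² + ds²`.

* A pair of pants with one cusp and two boundary geodesics of lengths `a, b`.  Its front half
  is a right angled pentagon with one ideal vertex.  Fermi coordinates are taken about the
  orthogeodesic joining the two boundary geodesics: `x` is the position on it and `s ≥ 0`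
  the distance to it.  The perpendicular dropped from the cusp cuts the pentagon into two
  Lambert quadrilaterals with an ideal vertex, whose finite sides `a / 2` and `wid a`
  satisfy `sinh (a / 2) * sinh (wid a) = 1`.  The first boundary geodesic is `x = 0`
  (`0 ≤ s ≤ a / 2`), the second one is `x = ortho a b` (`0 ≤ s ≤ b / 2`), and the two seams
  which run to the cusp are `tanh s = tanh (a / 2) * cosh x` and
  `tanh s = tanh (b / 2) * cosh (ortho a b - x)`.
* A pair of pants with two cusps and one boundary geodesic of length `a`.  Its front half is a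
  quadrilateral with two ideal vertices.  Fermi coordinates are taken about the boundary
  geodesic: the boundary is `s = 0` (`0 ≤ x ≤ a / 2`), the seams are `x = 0`, `x = a / 2`
  and `tanh s = cosh (x - a / 4) / cosh (a / 4)`, and the orthogeodesic from the boundary
  to itself starts at `x = a / 4`.
-/

set_option autoImplicit false

open MeasureTheory

namespace Pool.Agent.H223R3.Flute

/-- The length `w` with `sinh (a / 2) * sinh w = 1`: in a pair of pants with one cusp, the
distance from the foot of the orthogeodesic on a boundary geodesic of length `a` to the foot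
of the perpendicular dropped from the cusp to the orthogeodesic. -/
noncomputable def wid (a : ℝ) : ℝ := Real.arsinh (1 / Real.sinh (a / 2))

/-- The length of the orthogeodesic joining the two boundary geodesics (of lengths `a, b`) of a
pair of pants with one cusp. -/
noncomputable def ortho (a b : ℝ) : ℝ := wid a + wid b

/-- The front half (a right angled pentagon with one ideal vertex) of the pair of pants with one
cusp and boundary lengths `a, b`, in Fermi coordinates about its orthogeodesic. -/
def halfPants (a b : ℝ) : Set (ℝ × ℝ) :=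
  {p | 0 ≤ p.1 ∧ p.1 ≤ ortho a b ∧ 0 ≤ p.2 ∧
    (p.1 < wid a → Real.tanh p.2 ≤ Real.tanh (a / 2) * Real.cosh p.1) ∧
    (wid a < p.1 → Real.tanh p.2 ≤ Real.tanh (b / 2) * Real.cosh (ortho a b - p.1))}

/-- The seams of the pair of pants with one cusp. -/
def seamPants (a b : ℝ) : Set (ℝ × ℝ) :=
  {p | p ∈ halfPants a b ∧
    (p.2 = 0 ∨
      (p.1 < wid a ∧ Real.tanh p.2 = Real.tanh (a / 2) * Real.cosh p.1) ∨
      (wid a < p.1 ∧ Real.tanh p.2 = Real.tanh (b / 2) * Real.cosh (ortho a b - p.1)))}

/-- The front half (a quadrilateral with two ideal vertices) of the pair of pants with two cusps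
and one boundary geodesic of length `a`, in Fermi coordinates about that geodesic. -/
def halfCap (a : ℝ) : Set (ℝ × ℝ) :=
  {p | 0 ≤ p.1 ∧ p.1 ≤ a / 2 ∧ 0 ≤ p.2 ∧
    Real.tanh p.2 ≤ Real.cosh (p.1 - a / 4) / Real.cosh (a / 4)}

/-- The seams of the pair of pants with two cusps. -/
def seamCap (a : ℝ) : Set (ℝ × ℝ) :=
  {p | p ∈ halfCap a ∧
    (p.1 = 0 ∨ p.1 = a / 2 ∨
      Real.tanh p.2 = Real.cosh (p.1 - a / 4) / Real.cosh (a / 4))}

/-- The front half of the pair of pants `P n` of the flute surface; the length of the pants curve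
`α (n + 1)`, between `P n` and `P (n + 1)`, is `ℓ n`. -/
def piece (ℓ : ℕ → ℝ) : ℕ → Set (ℝ × ℝ)
  | 0 => halfCap (ℓ 0)
  | n + 1 => halfPants (ℓ n) (ℓ (n + 1))

/-- The seams of `P n`. -/
def seam (ℓ : ℕ → ℝ) : ℕ → Set (ℝ × ℝ)
  | 0 => seamCap (ℓ 0)
  | n + 1 => seamPants (ℓ n) (ℓ (n + 1))

/-- `true` is the front half of a pair of pants, `false` the back half.  The point at height `h`
of the half `b` of a pants curve has position `sgn b * h` on that closed curve. -/
def sgn (b : Bool) : ℝ := if b then 1 else -1

/-- A continuous function with compact support on the flute surface `X(ℓ, t)`, of class `C¹` up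
to the boundary on each half of each pair of pants.  The pants curve `α (n + 1)` has length
`ℓ n` and twist `t n` (a fraction of the length). -/
structure TestFun (ℓ t : ℕ → ℝ) where
  /-- `u n b` is the function on the half `b` of `P n`, in Fermi coordinates. -/
  u : ℕ → Bool → ℝ × ℝ → ℝ
  smooth : ∀ n b, ContDiff ℝ 1 (u n b)
  /-- the front and back halves of `P n` are glued along the seams -/
  seam_eq : ∀ n, ∀ p ∈ seam ℓ n, u n true p = u n false p
  /-- `P 0` and `P 1` are glued along `α 1`; on the side of `P 0` positions are counted from the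
  foot `x = ℓ 0 / 4` (front half) of the orthogeodesic from `α 1` to itself, on the side of
  `P 1` from the foot of its orthogeodesic -/
  glue_zero : ∀ (b b' : Bool) (x h : ℝ) (k : ℤ), 0 ≤ x → x ≤ ℓ 0 / 2 → 0 ≤ h → h ≤ ℓ 0 / 2 →
    sgn b * x - ℓ 0 / 4 = sgn b' * h + t 0 * ℓ 0 + k * ℓ 0 → u 0 b (x, 0) = u 1 b' (0, h)
  /-- `P (n + 1)` and `P (n + 2)` are glued along `α (n + 2)`, positions being counted from the
  feet of the two orthogeodesics -/
  glue_succ : ∀ (n : ℕ) (b b' : Bool) (h h' : ℝ) (k : ℤ), 0 ≤ h → h ≤ ℓ (n + 1) / 2 →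
    0 ≤ h' → h' ≤ ℓ (n + 1) / 2 →
    sgn b * h = sgn b' * h' + t (n + 1) * ℓ (n + 1) + k * ℓ (n + 1) →
    u (n + 1) b (ortho (ℓ n) (ℓ (n + 1)), h) = u (n + 2) b' (0, h')
  /-- compact support: zero on all but finitely many pairs of pants and near the cusps -/
  compact_support : ∃ (N : ℕ) (M : ℝ), ∀ n b p, p ∈ piece ℓ n → (N ≤ n ∨ M ≤ p.2) →
    u n b p = 0

/-- The squared length of the differential of `f`, times the area density, for the hyperbolic
metric `cosh² s dx² + ds²`: the integrand of the Dirichlet integral in Fermi coordinates. -/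
noncomputable def density (f : ℝ × ℝ → ℝ) (p : ℝ × ℝ) : ℝ :=
  (fderiv ℝ f p (1, 0)) ^ 2 / Real.cosh p.2 + (fderiv ℝ f p (0, 1)) ^ 2 * Real.cosh p.2

/-- The Dirichlet integral of a test function over the flute surface. -/
noncomputable def TestFun.energy {ℓ t : ℕ → ℝ} (U : TestFun ℓ t) : ENNReal :=
  ∑' n : ℕ, ∑ b : Bool, ∫⁻ p in piece ℓ n, ENNReal.ofReal (density (U.u n b) p)

/-- The flute surface `X(ℓ, t)` is parabolic: every compact subset has zero capacity.  The compact
sets here are the exhausting ones, which consist of the points of `P 0, ..., P N` with second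
Fermi coordinate at most `M`. -/
def IsParabolic (ℓ t : ℕ → ℝ) : Prop :=
  ∀ (N : ℕ) (M : ℝ) (ε : ENNReal), 0 < ε →
    ∃ U : TestFun ℓ t, (∀ n b p, n ≤ N → p ∈ piece ℓ n → p.2 ≤ M → U.u n b p = 1) ∧
      U.energy < ε

end Pool.Agent.H223R3.Flute
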