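import Pool.Agent.H223R3.Flute.Strip

set_option autoImplicit false

open MeasureTheory Set

namespace Pool.Agent.H223R3.Flute

/-- Cauchy-Schwarz against constants, on an interval. -/
theorem sq_integral_le {f : ℝ → ℝ} (hf : Continuous f) {d : ℝ} (hd : 0 < d) :
    (∫ x in (0:ℝ)..d, f x) ^ 2 ≤ d * ∫ x in (0:ℝ)..d, f x ^ 2 := by
  set I : ℝ := ∫ x in (0:ℝ)..d, f x with hI
  set m : ℝ := I / d with hm
  have h1 : 0 ≤ ∫ x in (0:ℝ)..d, (f x - m) ^ 2 :=
    intervalIntegral.integral_nonneg hd.le fun x _ => sq_nonneg _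
  have h2 : ∫ x in (0:ℝ)..d, (f x - m) ^ 2 =
      (∫ x in (0:ℝ)..d, f x ^ 2) - 2 * m * I + m ^ 2 * d := by
    have e : ∀ x, (f x - m) ^ 2 = (f x ^ 2 - (2 * m) * f x) + m ^ 2 := fun x => by ring
    simp_rw [e]
    rw [intervalIntegral.integral_add, intervalIntegral.integral_sub,
      intervalIntegral.integral_const_mul, intervalIntegral.integral_const]
    · simp; ring
    · exact (hf.pow 2).intervalIntegrable _ _
    · exact (continuous_const.mul hf).intervalIntegrable _ _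
    · exact ((hf.pow 2).sub (continuous_const.mul hf)).intervalIntegrable _ _
    · exact continuous_const.intervalIntegrable _ _
  rw [h2] at h1
  have h3 : m * d = I := by rw [hm]; field_simp
  have h4 : d * ((∫ x in (0:ℝ)..d, f x ^ 2) - 2 * m * I + m ^ 2 * d) =
      d * (∫ x in (0:ℝ)..d, f x ^ 2) - I ^ 2 := by
    have : d * ((∫ x in (0:ℝ)..d, f x ^ 2) - 2 * m * I + m ^ 2 * d) =
      d * (∫ x in (0:ℝ)..d, f x ^ 2) - 2 * (m * d) * I + (m * d) ^ 2 := by ring
    rw [this, h3]; ring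
  have h5 := mul_nonneg hd.le h1
  rw [h4] at h5
  linarith

section

variable {ℓ t : ℕ → ℝ} (U : TestFun ℓ t)

/-- The part of the Dirichlet density coming from the derivative across the strip. -/
noncomputable def gx (k : ℕ) (p : ℝ × ℝ) : ℝ :=
  (fderiv ℝ (U.u (k + 1) (side t k)) p (1, 0)) ^ 2 / Real.cosh p.2

theorem gx_continuous (k : ℕ) : Continuous (gx U k) := by
  unfold gx
  have h1 : Continuous fun p : ℝ × ℝ => fderiv ℝ (U.u (k + 1) (side t k)) p (1, 0) :=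
    ((U.smooth (k + 1) (side t k)).continuous_fderiv one_ne_zero).clm_apply continuous_const
  exact (h1.pow 2).div (Real.continuous_cosh.comp continuous_snd) fun p => (Real.cosh_pos _).ne'

theorem gx_nonneg (k : ℕ) (p : ℝ × ℝ) : 0 ≤ gx U k p :=
  div_nonneg (sq_nonneg _) (Real.cosh_pos _).le

theorem gx_le_density (k : ℕ) (p : ℝ × ℝ) :
    gx U k p ≤ density (U.u (k + 1) (side t k)) p := by
  unfold gx density
  have := mul_nonneg (sq_nonneg (fderiv ℝ (U.u (k + 1) (side t k)) p (0, 1)))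
    (Real.cosh_pos p.2).le
  linarith

/-- Value of the test function where the line `σ` of the strip enters `P (k + 1)`. -/
noncomputable def val (k : ℕ) (σ : ℝ) : ℝ := U.u (k + 1) (side t k) (0, ht ℓ t k σ)

theorem val_succ (hpos : ∀ n, 0 < ℓ n) (hmono : Monotone ℓ)
    (ht' : ∀ n, t n = 0 ∨ t n = 1 / 2) {σ : ℝ} (h0 : 0 ≤ σ) (h1 : σ ≤ ℓ 0 / 2) (k : ℕ) :
    val U (k + 1) σ = U.u (k + 1) (side t k) (ortho (ℓ k) (ℓ (k + 1)), ht ℓ t k σ) := by
  obtain ⟨h2, h3⟩ := ht_mem (t := t) hpos hmono h0 h1 k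
  obtain ⟨h4, h5⟩ := ht_mem (t := t) hpos hmono h0 h1 (k + 1)
  have h6 : ℓ k ≤ ℓ (k + 1) := hmono (Nat.le_succ k)
  symm
  unfold val
  rcases ht' (k + 1) with h | h
  · refine U.glue_succ k _ _ _ _ 0 h2 (by linarith) h4 h5 ?_
    simp [ht, side, h]
  · cases hb : side t k with
    | true =>
        refine U.glue_succ k _ _ _ _ 0 h2 (by linarith) h4 h5 ?_
        simp [ht, side, hb, sgn, h]
        ring
    | false =>
        refine U.glue_succ k _ _ _ _ (-1) h2 (by linarith) h4 h5 ?_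
        simp [ht, side, hb, sgn, h]
        ring

theorem val_diff_sq (hpos : ∀ n, 0 < ℓ n) (hmono : Monotone ℓ)
    (ht' : ∀ n, t n = 0 ∨ t n = 1 / 2) {σ : ℝ} (h0 : 0 ≤ σ) (h1 : σ ≤ ℓ 0 / 2) (k : ℕ) :
    (val U (k + 1) σ - val U k σ) ^ 2 ≤
      (ortho (ℓ k) (ℓ (k + 1)) * Real.cosh (ht ℓ t k σ)) *
        ∫ x in (0:ℝ)..(ortho (ℓ k) (ℓ (k + 1))), gx U k (x, ht ℓ t k σ) := by
  set f : ℝ × ℝ → ℝ := U.u (k + 1) (side t k) with hf
  set s : ℝ := ht ℓ t k σ with hs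
  set d : ℝ := ortho (ℓ k) (ℓ (k + 1)) with hd
  have hdpos : 0 < d := add_pos (wid_pos (hpos k)) (wid_pos (hpos (k + 1)))
  have hsm : ContDiff ℝ 1 f := U.smooth (k + 1) (side t k)
  have hder : ∀ x : ℝ, HasDerivAt (fun x => f (x, s)) (fderiv ℝ f (x, s) (1, 0)) x := by
    intro x
    have e1 : HasFDerivAt f (fderiv ℝ f (x, s)) (x, s) :=
      (hsm.differentiable one_ne_zero (x, s)).hasFDerivAt
    have e2 : HasDerivAt (fun x : ℝ => (x, s)) ((1 : ℝ), (0 : ℝ)) x :=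
      (hasDerivAt_id x).prodMk (hasDerivAt_const x s)
    exact e1.comp_hasDerivAt x e2
  have hcont : Continuous fun x : ℝ => fderiv ℝ f (x, s) (1, 0) := by
    have h1 : Continuous fun p : ℝ × ℝ => fderiv ℝ f p (1, 0) :=
      (hsm.continuous_fderiv one_ne_zero).clm_apply continuous_const
    exact h1.comp (continuous_id.prodMk continuous_const)
  have hftc : ∫ x in (0:ℝ)..d, fderiv ℝ f (x, s) (1, 0) = f (d, s) - f (0, s) :=
    intervalIntegral.integral_eq_sub_of_hasDerivAt (fun x _ => hder x)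
      (hcont.intervalIntegrable _ _)
  have hval : val U (k + 1) σ - val U k σ = ∫ x in (0:ℝ)..d, fderiv ℝ f (x, s) (1, 0) := by
    rw [hftc, val_succ U hpos hmono ht' h0 h1 k]
    rfl
  rw [hval]
  refine (sq_integral_le hcont hdpos).trans_eq ?_
  have hg : ∀ x, gx U k (x, s) = (Real.cosh s)⁻¹ * (fderiv ℝ f (x, s) (1, 0)) ^ 2 := by
    intro x
    simp only [gx, ← hf]
    rw [div_eq_inv_mul]
  simp_rw [hg]
  rw [intervalIntegral.integral_const_mul]
  have := (Real.cosh_pos s).ne'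
  field_simp

/-- The Dirichlet mass of the line `σ` of the strip in `P (k + 1)`. -/
noncomputable def mass (k : ℕ) (σ : ℝ) : ℝ :=
  ∫ x in (0:ℝ)..(ortho (ℓ k) (ℓ (k + 1))), gx U k (x, ht ℓ t k σ)

theorem mass_nonneg (hpos : ∀ n, 0 < ℓ n) (k : ℕ) (σ : ℝ) : 0 ≤ mass U k σ :=
  intervalIntegral.integral_nonneg
    (add_pos (wid_pos (hpos k)) (wid_pos (hpos (k + 1)))).le fun _ _ => gx_nonneg U k _

/-- Along every line of the strip the mass is bounded below. -/
theorem one_le_mass (hpos : ∀ n, 0 < ℓ n) (hmono : Monotone ℓ)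
    (ht' : ∀ n, t n = 0 ∨ t n = 1 / 2) {C : ℝ}
    (hC : ∀ σ, 0 ≤ σ → σ ≤ ℓ 0 / 2 → ∀ K,
      ∑ k ∈ Finset.range K, ortho (ℓ k) (ℓ (k + 1)) * Real.cosh (ht ℓ t k σ) ≤ C)
    {M : ℝ} (hM : ℓ 0 / 2 ≤ M)
    (hone : ∀ n b p, n ≤ 1 → p ∈ piece ℓ n → p.2 ≤ M → U.u n b p = 1)
    {K : ℕ} {M' : ℝ} (hsupp : ∀ n b p, p ∈ piece ℓ n → (K ≤ n ∨ M' ≤ p.2) → U.u n b p = 0)
    {σ : ℝ} (h0 : 0 ≤ σ) (h1 : σ ≤ ℓ 0 / 2) :
    1 ≤ C * ∑ k ∈ Finset.range K, mass U k σ := by
  have hpiece : ∀ k, ((0:ℝ), ht ℓ t k σ) ∈ piece ℓ (k + 1) := by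
    intro k
    obtain ⟨h2, h3⟩ := ht_mem (t := t) hpos hmono h0 h1 k
    apply rect_subset (hpos k) (hmono (Nat.le_succ k))
    exact ⟨⟨le_rfl, (add_pos (wid_pos (hpos k)) (wid_pos (hpos (k + 1)))).le⟩, ⟨h2, h3⟩⟩
  have hv0 : val U 0 σ = 1 := hone 1 _ _ le_rfl (hpiece 0) (by simp only [ht]; linarith)
  have hvK : val U K σ = 0 := hsupp (K + 1) _ _ (hpiece K) (Or.inl (Nat.le_succ K))
  have htel : ∑ k ∈ Finset.range K, (val U (k + 1) σ - val U k σ) = -1 := by
    rw [Finset.sum_range_sub (fun k => val U k σ), hv0, hvK]; ring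
  set B : ℕ → ℝ := fun k => ortho (ℓ k) (ℓ (k + 1)) * Real.cosh (ht ℓ t k σ) with hB
  have hBpos : ∀ k, 0 < B k := fun k =>
    mul_pos (add_pos (wid_pos (hpos k)) (wid_pos (hpos (k + 1)))) (Real.cosh_pos _)
  set D : ℕ → ℝ := fun k => val U (k + 1) σ - val U k σ with hD
  have hCS : (∑ k ∈ Finset.range K, D k) ^ 2 ≤
      (∑ k ∈ Finset.range K, D k ^ 2 / B k) * ∑ k ∈ Finset.range K, B k :=
    Finset.sum_sq_le_sum_mul_sum_of_sq_le_mul _
      (fun k _ => div_nonneg (sq_nonneg _) (hBpos k).le) (fun k _ => (hBpos k).le)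
      (fun k _ => by rw [div_mul_cancel₀ _ (hBpos k).ne'])
  have hDB : ∀ k, D k ^ 2 / B k ≤ mass U k σ := by
    intro k
    rw [div_le_iff₀ (hBpos k), mul_comm]
    exact val_diff_sq U hpos hmono ht' h0 h1 k
  have hmass0 : 0 ≤ ∑ k ∈ Finset.range K, mass U k σ :=
    Finset.sum_nonneg fun k _ => mass_nonneg U hpos k σ
  calc (1:ℝ) = (∑ k ∈ Finset.range K, D k) ^ 2 := by rw [htel]; norm_num
    _ ≤ (∑ k ∈ Finset.range K, D k ^ 2 / B k) * ∑ k ∈ Finset.range K, B k := hCS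
    _ ≤ (∑ k ∈ Finset.range K, mass U k σ) * C := by
        apply mul_le_mul (Finset.sum_le_sum fun k _ => hDB k) (hC σ h0 h1 K)
          (Finset.sum_nonneg fun k _ => (hBpos k).le) hmass0
    _ = C * ∑ k ∈ Finset.range K, mass U k σ := mul_comm _ _

/-- Integrating the mass over the strip gives at most the Dirichlet integral over the piece. -/
theorem lintegral_mass_le (hpos : ∀ n, 0 < ℓ n) (hmono : Monotone ℓ) (k : ℕ) :
    ∫⁻ σ in Icc (0:ℝ) (ℓ 0 / 2), ENNReal.ofReal (mass U k σ) ≤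
      ∑ b : Bool, ∫⁻ p in piece ℓ (k + 1), ENNReal.ofReal (density (U.u (k + 1) b) p) := by
  set d : ℝ := ortho (ℓ k) (ℓ (k + 1)) with hd
  have hdpos : 0 < d := add_pos (wid_pos (hpos k)) (wid_pos (hpos (k + 1)))
  set G : ℝ → ENNReal := fun s => ∫⁻ x in Icc (0:ℝ) d, ENNReal.ofReal (gx U k (x, s)) with hG
  have hmeas2 : Measurable fun p : ℝ × ℝ => ENNReal.ofReal (gx U k p) :=
    (gx_continuous U k).measurable.ennreal_ofReal
  have hGmeas : Measurable G := by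
    rw [hG]
    exact Measurable.lintegral_prod_left' (μ := volume.restrict (Icc (0:ℝ) d)) hmeas2
  have hmass : ∀ σ, ENNReal.ofReal (mass U k σ) = G (ht ℓ t k σ) := by
    intro σ
    unfold mass
    rw [intervalIntegral.integral_of_le hdpos.le, ← integral_Icc_eq_integral_Ioc,
      ofReal_integral_eq_lintegral_ofReal]
    · have : Continuous fun x : ℝ => gx U k (x, ht ℓ t k σ) :=
        (gx_continuous U k).comp (continuous_id.prodMk continuous_const)
      exact this.continuousOn.integrableOn_Icc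
    · exact Filter.Eventually.of_forall fun x => gx_nonneg U k _
  set F : ℝ → ENNReal := (Icc (0:ℝ) (ℓ k / 2)).indicator G with hF
  have hFmeas : Measurable F := hGmeas.indicator measurableSet_Icc
  have h1 : ∫⁻ σ in Icc (0:ℝ) (ℓ 0 / 2), ENNReal.ofReal (mass U k σ) ≤
      ∫⁻ σ : ℝ, F (ht ℓ t k σ) := by
    rw [← lintegral_indicator measurableSet_Icc]
    apply lintegral_mono
    intro σ
    by_cases hσ : σ ∈ Icc (0:ℝ) (ℓ 0 / 2)
    · simp only [indicator_of_mem hσ, hF]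
      have hm : ht ℓ t k σ ∈ Icc (0:ℝ) (ℓ k / 2) := ht_mem (t := t) hpos hmono hσ.1 hσ.2 k
      rw [indicator_of_mem hm, hmass]
    · simp only [indicator_of_notMem hσ]
      exact bot_le
  have h2 : ∫⁻ σ : ℝ, F (ht ℓ t k σ) = ∫⁻ s : ℝ, F s := by
    rcases ht_affine (ℓ := ℓ) (t := t) k with ⟨c, hc⟩ | ⟨c, hc⟩
    · simp_rw [hc]
      exact lintegral_add_right_eq_self F c
    · simp_rw [hc]
      exact lintegral_sub_left_eq_self F c
  have h3 : ∫⁻ s : ℝ, F s = ∫⁻ s in Icc (0:ℝ) (ℓ k / 2), G s :=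
    lintegral_indicator measurableSet_Icc _
  have h4 : ∫⁻ s in Icc (0:ℝ) (ℓ k / 2), G s =
      ∫⁻ p in Icc (0:ℝ) d ×ˢ Icc (0:ℝ) (ℓ k / 2), ENNReal.ofReal (gx U k p) := by
    rw [Measure.volume_eq_prod, ← Measure.prod_restrict, lintegral_prod_symm' _ hmeas2]
  have h5 : ∫⁻ p in Icc (0:ℝ) d ×ˢ Icc (0:ℝ) (ℓ k / 2), ENNReal.ofReal (gx U k p) ≤
      ∫⁻ p in piece ℓ (k + 1), ENNReal.ofReal (density (U.u (k + 1) (side t k)) p) := by
    refine (lintegral_mono fun p => ENNReal.ofReal_le_ofReal (gx_le_density U k p)).trans ?_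
    exact lintegral_mono_set (rect_subset (hpos k) (hmono (Nat.le_succ k)))
  have h6 : ∫⁻ p in piece ℓ (k + 1), ENNReal.ofReal (density (U.u (k + 1) (side t k)) p) ≤
      ∑ b : Bool, ∫⁻ p in piece ℓ (k + 1), ENNReal.ofReal (density (U.u (k + 1) b) p) :=
    Finset.single_le_sum (f := fun b : Bool =>
      ∫⁻ p in piece ℓ (k + 1), ENNReal.ofReal (density (U.u (k + 1) b) p))
      (fun _ _ => bot_le) (Finset.mem_univ (side t k))
  exact (h1.trans_eq (h2.trans (h3.trans h4))).trans (h5.trans h6)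

end

/-- If `∑ exp (-(ℓ (n + 1) - ℓ n) / 2)` converges then no choice of twists in `{0, 1 / 2}` makes
the flute surface parabolic. -/
theorem not_isParabolic {ℓ : ℕ → ℝ} (hpos : ∀ n, 0 < ℓ n) (hmono : Monotone ℓ)
    (hsum : Summable fun n => Real.exp (-((ℓ (n + 1) - ℓ n) / 2)))
    {t : ℕ → ℝ} (ht' : ∀ n, t n = 0 ∨ t n = 1 / 2) : ¬ IsParabolic ℓ t := by
  intro hP
  obtain ⟨C, hCpos, hC⟩ := sum_width_le (t := t) hpos hmono hsum
  have hε : 0 < ENNReal.ofReal (1 / C * (ℓ 0 / 2)) := by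
    rw [ENNReal.ofReal_pos]
    have := hpos 0
    positivity
  obtain ⟨U, hone, hlt⟩ := hP 1 (ℓ 0 / 2) _ hε
  obtain ⟨K, M', hsupp⟩ := U.compact_support
  apply absurd hlt
  rw [not_lt]
  have hmassmeas : ∀ k, Measurable fun σ => ENNReal.ofReal (mass U k σ) := by
    intro k
    have hc : Continuous fun σ => mass U k σ := by
      unfold mass
      apply intervalIntegral.continuous_parametric_intervalIntegral_of_continuous'
      have hht : Continuous fun σ => ht ℓ t k σ := by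
        rcases ht_affine (ℓ := ℓ) (t := t) k with ⟨c, hc⟩ | ⟨c, hc⟩
        · simp_rw [hc]; fun_prop
        · simp_rw [hc]; fun_prop
      exact (gx_continuous U k).comp (continuous_snd.prodMk (hht.comp continuous_fst))
    exact hc.measurable.ennreal_ofReal
  calc ENNReal.ofReal (1 / C * (ℓ 0 / 2))
      = ∫⁻ _σ in Icc (0:ℝ) (ℓ 0 / 2), ENNReal.ofReal (1 / C) := by
        rw [lintegral_const, Measure.restrict_apply_univ, Real.volume_Icc, sub_zero,
          ENNReal.ofReal_mul (by positivity)]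
    _ ≤ ∫⁻ σ in Icc (0:ℝ) (ℓ 0 / 2), ∑ k ∈ Finset.range K, ENNReal.ofReal (mass U k σ) := by
        apply setLIntegral_mono' measurableSet_Icc
        intro σ hσ
        rw [← ENNReal.ofReal_sum_of_nonneg fun k _ => mass_nonneg U hpos k σ]
        apply ENNReal.ofReal_le_ofReal
        have := one_le_mass U hpos hmono ht' hC le_rfl hone hsupp hσ.1 hσ.2
        rw [div_le_iff₀ hCpos, mul_comm]
        exact this
    _ = ∑ k ∈ Finset.range K, ∫⁻ σ in Icc (0:ℝ) (ℓ 0 / 2), ENNReal.ofReal (mass U k σ) :=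
        lintegral_finsetSum _ fun k _ => hmassmeas k
    _ ≤ ∑ k ∈ Finset.range K,
        ∑ b : Bool, ∫⁻ p in piece ℓ (k + 1), ENNReal.ofReal (density (U.u (k + 1) b) p) :=
        Finset.sum_le_sum fun k _ => lintegral_mass_le U hpos hmono k
    _ ≤ ∑ n ∈ Finset.range (K + 1),
        ∑ b : Bool, ∫⁻ p in piece ℓ n, ENNReal.ofReal (density (U.u n b) p) := by
        rw [Finset.sum_range_succ' _ K]
        exact le_self_add
    _ ≤ U.energy := ENNReal.sum_le_tsum _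

end Pool.Agent.H223R3.Flute
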