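import Pool.Agent.H223R3.Flute.Defs

set_option autoImplicit false

open MeasureTheory Set

namespace Pool.Agent.H223R3.Flute

/-! ### Elementary hyperbolic estimates -/

theorem tanh_mono {x y : ℝ} (h : x ≤ y) : Real.tanh x ≤ Real.tanh y := by
  rw [Real.tanh_eq_sinh_div_cosh, Real.tanh_eq_sinh_div_cosh,
    div_le_div_iff₀ (Real.cosh_pos x) (Real.cosh_pos y)]
  have h1 : Real.sinh (x - y) ≤ 0 := Real.sinh_nonpos_iff.2 (by linarith)
  rw [Real.sinh_sub] at h1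
  linarith

theorem tanh_nonneg {x : ℝ} (h : 0 ≤ x) : 0 ≤ Real.tanh x := by
  rw [Real.tanh_eq_sinh_div_cosh]
  exact div_nonneg (Real.sinh_nonneg_iff.2 h) (Real.cosh_pos x).le

theorem wid_pos {a : ℝ} (ha : 0 < a) : 0 < wid a := by
  unfold wid
  rw [Real.arsinh_pos_iff]
  exact one_div_pos.2 (Real.sinh_pos_iff.2 (by linarith))

theorem wid_le {a : ℝ} (ha : 0 < a) : wid a ≤ 1 / Real.sinh (a / 2) := by
  have h : 0 ≤ wid a := (wid_pos ha).le
  have h2 := Real.self_le_sinh_iff.2 h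
  unfold wid at h2 ⊢
  rwa [Real.sinh_arsinh] at h2

theorem sinh_ge {x c : ℝ} (hc : c ≤ x) :
    (1 - Real.exp (-(2 * c))) / 2 * Real.exp x ≤ Real.sinh x := by
  rw [Real.sinh_eq]
  have h1 : Real.exp (-x) ≤ Real.exp (-(2 * c)) * Real.exp x := by
    rw [← Real.exp_add]
    exact Real.exp_le_exp.2 (by linarith)
  linarith

theorem cosh_le_exp {x : ℝ} (hx : 0 ≤ x) : Real.cosh x ≤ Real.exp x := by
  rw [Real.cosh_eq]
  have : Real.exp (-x) ≤ Real.exp x := Real.exp_le_exp.2 (by linarith)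
  linarith

theorem rect_subset {a b : ℝ} (ha : 0 < a) (hab : a ≤ b) :
    Icc (0:ℝ) (ortho a b) ×ˢ Icc (0:ℝ) (a / 2) ⊆ halfPants a b := by
  rintro ⟨x, s⟩ ⟨⟨hx0, hx1⟩, ⟨hs0, hs1⟩⟩
  simp only at hx0 hx1 hs0 hs1
  refine ⟨hx0, hx1, hs0, fun _ => ?_, fun _ => ?_⟩
  · calc Real.tanh s ≤ Real.tanh (a / 2) := tanh_mono hs1
      _ = Real.tanh (a / 2) * 1 := (mul_one _).symm
      _ ≤ Real.tanh (a / 2) * Real.cosh x :=
          mul_le_mul_of_nonneg_left (Real.one_le_cosh x) (tanh_nonneg (by linarith))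
  · calc Real.tanh s ≤ Real.tanh (b / 2) := tanh_mono (by linarith)
      _ = Real.tanh (b / 2) * 1 := (mul_one _).symm
      _ ≤ Real.tanh (b / 2) * Real.cosh (ortho a b - x) :=
          mul_le_mul_of_nonneg_left (Real.one_le_cosh _) (tanh_nonneg (by linarith))

/-! ### The strip -/

section Strip

variable (ℓ t : ℕ → ℝ)

/-- The height at which the line of the strip with parameter `σ` crosses the front or back half of
`P (k + 1)`. -/
noncomputable def ht : ℕ → ℝ → ℝ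
  | 0, σ => σ
  | k + 1, σ => if t (k + 1) = 0 then ht k σ else ℓ (k + 1) / 2 - ht k σ

/-- The half of `P (k + 1)` crossed by the strip. -/
noncomputable def side : ℕ → Bool
  | 0 => true
  | k + 1 => if t (k + 1) = 0 then side k else !side k

variable {ℓ t}

theorem ht_mem (hpos : ∀ n, 0 < ℓ n) (hmono : Monotone ℓ) {σ : ℝ} (h0 : 0 ≤ σ)
    (h1 : σ ≤ ℓ 0 / 2) : ∀ k, 0 ≤ ht ℓ t k σ ∧ ht ℓ t k σ ≤ ℓ k / 2
  | 0 => ⟨h0, h1⟩
  | k + 1 => by
      obtain ⟨h2, h3⟩ := ht_mem hpos hmono h0 h1 k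
      have h4 : ℓ k ≤ ℓ (k + 1) := hmono (Nat.le_succ k)
      unfold ht
      split_ifs
      · exact ⟨h2, by linarith⟩
      · exact ⟨by linarith, by linarith⟩

theorem ht_affine : ∀ k, (∃ c : ℝ, ∀ σ, ht ℓ t k σ = σ + c) ∨ (∃ c : ℝ, ∀ σ, ht ℓ t k σ = c - σ)
  | 0 => Or.inl ⟨0, fun σ => by simp [ht]⟩
  | k + 1 => by
      rcases ht_affine k with ⟨c, hc⟩ | ⟨c, hc⟩
      · by_cases h : t (k + 1) = 0
        · exact Or.inl ⟨c, fun σ => by simp [ht, h, hc]⟩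
        · exact Or.inr ⟨ℓ (k + 1) / 2 - c, fun σ => by simp [ht, h, hc]; ring⟩
      · by_cases h : t (k + 1) = 0
        · exact Or.inr ⟨c, fun σ => by simp [ht, h, hc]⟩
        · exact Or.inl ⟨ℓ (k + 1) / 2 - c, fun σ => by simp [ht, h, hc]; ring⟩

theorem sum_exp_le (hpos : ∀ n, 0 < ℓ n) (hmono : Monotone ℓ) {σ : ℝ} (h0 : 0 ≤ σ)
    (h1 : σ ≤ ℓ 0 / 2) (K : ℕ) :
    (∑ k ∈ Finset.range K, Real.exp (-(ℓ k / 2 - ht ℓ t k σ))) +
        Real.exp (-(ℓ K / 2 - ht ℓ t K σ)) + Real.exp (-(ht ℓ t K σ)) ≤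
      2 + ∑ k ∈ Finset.range K, Real.exp (-((ℓ (k + 1) - ℓ k) / 2)) := by
  induction K with
  | zero =>
      have h2 : Real.exp (-(ℓ 0 / 2 - ht ℓ t 0 σ)) ≤ 1 := by
        rw [Real.exp_le_one_iff]; simp only [ht]; linarith
      have h3 : Real.exp (-(ht ℓ t 0 σ)) ≤ 1 := by
        rw [Real.exp_le_one_iff]; simp only [ht]; linarith
      simp only [Finset.range_zero, Finset.sum_empty]
      linarith
  | succ K ih =>
      rw [Finset.sum_range_succ, Finset.sum_range_succ]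
      obtain ⟨h2, h3⟩ := ht_mem (t := t) hpos hmono h0 h1 K
      have h4 : Real.exp (-(ℓ (K + 1) / 2 - ht ℓ t K σ)) ≤ Real.exp (-((ℓ (K + 1) - ℓ K) / 2)) :=
        Real.exp_le_exp.2 (by linarith)
      by_cases h : t (K + 1) = 0
      · have e : ht ℓ t (K + 1) σ = ht ℓ t K σ := by simp [ht, h]
        rw [e]
        linarith
      · have e : ht ℓ t (K + 1) σ = ℓ (K + 1) / 2 - ht ℓ t K σ := by simp [ht, h]
        rw [e]
        have e2 : ℓ (K + 1) / 2 - (ℓ (K + 1) / 2 - ht ℓ t K σ) = ht ℓ t K σ := by ring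
        rw [e2]
        linarith

/-- The widths of the strip are summable, uniformly in the parameter. -/
theorem sum_width_le (hpos : ∀ n, 0 < ℓ n) (hmono : Monotone ℓ)
    (hsum : Summable fun n => Real.exp (-((ℓ (n + 1) - ℓ n) / 2))) :
    ∃ C : ℝ, 0 < C ∧ ∀ σ, 0 ≤ σ → σ ≤ ℓ 0 / 2 → ∀ K,
      ∑ k ∈ Finset.range K, ortho (ℓ k) (ℓ (k + 1)) * Real.cosh (ht ℓ t k σ) ≤ C := by
  set c0 : ℝ := (1 - Real.exp (-(2 * (ℓ 0 / 2)))) / 2 with hc0
  have hc0pos : 0 < c0 := by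
    have : Real.exp (-(2 * (ℓ 0 / 2))) < 1 := by
      rw [Real.exp_lt_one_iff]; linarith [hpos 0]
    rw [hc0]; linarith
  set S : ℝ := ∑' n, Real.exp (-((ℓ (n + 1) - ℓ n) / 2)) with hS
  have hS0 : 0 ≤ S := tsum_nonneg fun n => (Real.exp_pos _).le
  refine ⟨2 / c0 * (2 + S), by positivity, fun σ h0 h1 K => ?_⟩
  have hterm : ∀ k, ortho (ℓ k) (ℓ (k + 1)) * Real.cosh (ht ℓ t k σ) ≤
      2 / c0 * Real.exp (-(ℓ k / 2 - ht ℓ t k σ)) := by
    intro k
    obtain ⟨h2, h3⟩ := ht_mem (t := t) hpos hmono h0 h1 k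
    have hw : ∀ j, k ≤ j → wid (ℓ j) ≤ 1 / (c0 * Real.exp (ℓ k / 2)) := by
      intro j hj
      refine (wid_le (hpos j)).trans ?_
      have hj0 : ℓ 0 / 2 ≤ ℓ j / 2 := by
        have := hmono (Nat.zero_le j); linarith
      have hs := sinh_ge hj0
      rw [← hc0] at hs
      have hjk : Real.exp (ℓ k / 2) ≤ Real.exp (ℓ j / 2) := by
        apply Real.exp_le_exp.2
        have := hmono hj; linarith
      apply one_div_le_one_div_of_le (by positivity)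
      exact (mul_le_mul_of_nonneg_left hjk hc0pos.le).trans hs
    have ho : ortho (ℓ k) (ℓ (k + 1)) ≤ 2 / (c0 * Real.exp (ℓ k / 2)) := by
      unfold ortho
      have e1 := hw k le_rfl
      have e2 := hw (k + 1) (Nat.le_succ k)
      have e3 : 2 / (c0 * Real.exp (ℓ k / 2)) =
          1 / (c0 * Real.exp (ℓ k / 2)) + 1 / (c0 * Real.exp (ℓ k / 2)) := by ring
      rw [e3]; linarith
    calc ortho (ℓ k) (ℓ (k + 1)) * Real.cosh (ht ℓ t k σ)
        ≤ 2 / (c0 * Real.exp (ℓ k / 2)) * Real.exp (ht ℓ t k σ) := by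
          apply mul_le_mul ho (cosh_le_exp h2) (Real.cosh_pos _).le (by positivity)
      _ = 2 / c0 * Real.exp (-(ℓ k / 2 - ht ℓ t k σ)) := by
          rw [show -(ℓ k / 2 - ht ℓ t k σ) = ht ℓ t k σ - ℓ k / 2 by ring, Real.exp_sub]
          field_simp
  calc ∑ k ∈ Finset.range K, ortho (ℓ k) (ℓ (k + 1)) * Real.cosh (ht ℓ t k σ)
      ≤ ∑ k ∈ Finset.range K, 2 / c0 * Real.exp (-(ℓ k / 2 - ht ℓ t k σ)) :=
        Finset.sum_le_sum fun k _ => hterm k
    _ = 2 / c0 * ∑ k ∈ Finset.range K, Real.exp (-(ℓ k / 2 - ht ℓ t k σ)) := by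
        rw [Finset.mul_sum]
    _ ≤ 2 / c0 * (2 + S) := by
        apply mul_le_mul_of_nonneg_left _ (by positivity)
        have e1 := sum_exp_le (t := t) hpos hmono h0 h1 K
        have e2 : ∑ k ∈ Finset.range K, Real.exp (-((ℓ (k + 1) - ℓ k) / 2)) ≤ S :=
          hsum.sum_le_tsum _ fun i _ => (Real.exp_pos _).le
        have e3 := (Real.exp_pos (-(ℓ K / 2 - ht ℓ t K σ))).le
        have e4 := (Real.exp_pos (-(ht ℓ t K σ))).le
        linarith

end Strip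

end Pool.Agent.H223R3.Flute
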